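import Mathlib

set_option autoImplicit false

/-! Elementary estimates for `t ^ c`, `1 < c < 2`. -/

namespace Pool.Agent.W147.PS

theorem bern3 (s c : ℝ) (hs : 0 ≤ s) (hc1 : 1 ≤ c) (hc2 : c ≤ 2) :
    (1 + s) ^ c ≤ 1 + c * s + c * (c - 1) * s ^ 2 := by
  have h1s : 0 < 1 + s := by linarith
  have h1 : 1 + c * (-s / (1 + s)) ≤ (1 + -s / (1 + s)) ^ c := by
    refine one_add_mul_self_le_rpow_one_add ?_ hc1
    rw [le_div_iff₀ h1s]; linarith
  have h2 : 1 + -s / (1 + s) = (1 + s)⁻¹ := by field_simp; ring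
  rw [h2, Real.inv_rpow h1s.le] at h1
  have h3 : 0 < (1 + s) ^ c := Real.rpow_pos_of_pos h1s c
  have h4 : (1 + s) ^ c * (1 + c * (-s / (1 + s))) ≤ 1 := by
    calc (1 + s) ^ c * (1 + c * (-s / (1 + s))) ≤ (1 + s) ^ c * ((1 + s) ^ c)⁻¹ :=
          mul_le_mul_of_nonneg_left h1 h3.le
      _ = 1 := mul_inv_cancel₀ h3.ne'
  have h5 : (1 + s) ^ c = (1 + s) ^ (c - 1) * (1 + s) := by
    rw [Real.rpow_sub_one h1s.ne']; field_simp
  have h6 : (1 + s) ^ c * (1 + c * (-s / (1 + s))) = (1 + s) ^ c - c * s * (1 + s) ^ (c - 1) := by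
    rw [h5]; field_simp; ring
  have h7 : (1 + s) ^ (c - 1) ≤ 1 + (c - 1) * s :=
    rpow_one_add_le_one_add_mul_self (by linarith) (by linarith) (by linarith)
  have h8 : c * s * (1 + s) ^ (c - 1) ≤ c * s * (1 + (c - 1) * s) :=
    mul_le_mul_of_nonneg_left h7 (by nlinarith)
  nlinarith

theorem bern4 (s a : ℝ) (hs : 0 ≤ s) (hs1 : s ≤ 1) (ha : 0 ≤ a) (ha1 : a ≤ 1) :
    1 + a * s / 2 ≤ (1 + s) ^ a := by
  have h1s : 0 < 1 + s := by linarith
  have h1 : (1 + -s / (1 + s)) ^ a ≤ 1 + a * (-s / (1 + s)) := by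
    refine rpow_one_add_le_one_add_mul_self ?_ ha ha1
    rw [le_div_iff₀ h1s]; linarith
  have h2 : 1 + -s / (1 + s) = (1 + s)⁻¹ := by field_simp; ring
  rw [h2, Real.inv_rpow h1s.le] at h1
  have h3 : 0 < (1 + s) ^ a := Real.rpow_pos_of_pos h1s a
  set v := a * (s / (1 + s)) with hv
  have hv0 : 0 ≤ v := by positivity
  have hvs : a * s / 2 ≤ v := by
    rw [hv, mul_div_assoc]
    refine mul_le_mul_of_nonneg_left ?_ ha
    exact div_le_div_of_nonneg_left hs h1s (by linarith)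
  have h4 : ((1 + s) ^ a)⁻¹ ≤ 1 - v := by
    have : 1 + a * (-s / (1 + s)) = 1 - v := by rw [hv]; ring
    linarith
  have h5 : 1 ≤ (1 - v) * (1 + s) ^ a := by
    calc (1 : ℝ) = ((1 + s) ^ a)⁻¹ * (1 + s) ^ a := (inv_mul_cancel₀ h3.ne').symm
      _ ≤ (1 - v) * (1 + s) ^ a := mul_le_mul_of_nonneg_right h4 h3.le
  -- (1 + v) ≤ (1+v)(1-v) X ≤ X
  have h6 : (1 + v) * 1 ≤ (1 + v) * ((1 - v) * (1 + s) ^ a) :=
    mul_le_mul_of_nonneg_left h5 (by linarith)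
  have h7 : (1 + v) * ((1 - v) * (1 + s) ^ a) = (1 - v ^ 2) * (1 + s) ^ a := by ring
  have h8 : (1 - v ^ 2) * (1 + s) ^ a ≤ (1 + s) ^ a := by
    nlinarith [sq_nonneg v]
  linarith

theorem taylor (N h c : ℝ) (hN : 0 < N) (hh : 0 ≤ h) (hc1 : 1 ≤ c) (hc2 : c ≤ 2) :
    |(N + h) ^ c - N ^ c - c * N ^ (c - 1) * h| ≤ c * (c - 1) * N ^ (c - 2) * h ^ 2 := by
  have e0 : N + h = N * (1 + h / N) := by field_simp
  have e1 : (N + h) ^ c = N ^ c * (1 + h / N) ^ c := by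
    rw [e0, Real.mul_rpow hN.le (by positivity)]
  have e2 : N ^ (c - 1) = N ^ c / N := by rw [Real.rpow_sub_one hN.ne']
  have e3 : N ^ (c - 2) = N ^ c / N ^ 2 := by
    rw [Real.rpow_sub hN]; norm_cast
  have hs : 0 ≤ h / N := by positivity
  have u1 : 1 + c * (h / N) ≤ (1 + h / N) ^ c :=
    one_add_mul_self_le_rpow_one_add (by linarith) hc1
  have u2 := bern3 (h / N) c hs hc1 hc2
  have p : 0 < N ^ c := Real.rpow_pos_of_pos hN c
  have v1 := mul_le_mul_of_nonneg_left u1 p.le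
  have v2 := mul_le_mul_of_nonneg_left u2 p.le
  rw [← e1] at v1 v2
  have w1 : N ^ c * (1 + c * (h / N)) = N ^ c + c * N ^ (c - 1) * h := by rw [e2]; ring
  have w2 : N ^ c * (1 + c * (h / N) + c * (c - 1) * (h / N) ^ 2) =
      N ^ c + c * N ^ (c - 1) * h + c * (c - 1) * N ^ (c - 2) * h ^ 2 := by
    rw [e2, e3]; ring
  rw [w1] at v1
  rw [w2] at v2
  rw [abs_le]
  constructor
  · have : 0 ≤ c * (c - 1) * N ^ (c - 2) * h ^ 2 := by
      have : 0 ≤ c - 1 := by linarith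
      positivity
    linarith
  · linarith

/-- derivative scale: `(t + s)^(c-1) - t^(c-1) ≤ (c-1) t^(c-2) s` -/
theorem deriv_up (t s a : ℝ) (ht : 0 < t) (hs : 0 ≤ s) (ha : 0 ≤ a) (ha1 : a ≤ 1) :
    (t + s) ^ a ≤ t ^ a + a * t ^ (a - 1) * s := by
  have e0 : t + s = t * (1 + s / t) := by field_simp
  have e1 : (t + s) ^ a = t ^ a * (1 + s / t) ^ a := by
    rw [e0, Real.mul_rpow ht.le (by positivity)]
  have u : (1 + s / t) ^ a ≤ 1 + a * (s / t) :=
    rpow_one_add_le_one_add_mul_self (by have : 0 ≤ s / t := by positivity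
                                         linarith) ha ha1
  have e2 : t ^ (a - 1) = t ^ a / t := by rw [Real.rpow_sub_one ht.ne']
  rw [e1, e2]
  have p : 0 < t ^ a := Real.rpow_pos_of_pos ht a
  calc t ^ a * (1 + s / t) ^ a ≤ t ^ a * (1 + a * (s / t)) := mul_le_mul_of_nonneg_left u p.le
    _ = _ := by ring

theorem deriv_low (t s a : ℝ) (ht : 0 < t) (hs : 0 ≤ s) (hst : s ≤ t) (ha : 0 ≤ a) (ha1 : a ≤ 1) :
    t ^ a + a * t ^ (a - 1) * s / 2 ≤ (t + s) ^ a := by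
  have e0 : t + s = t * (1 + s / t) := by field_simp
  have e1 : (t + s) ^ a = t ^ a * (1 + s / t) ^ a := by
    rw [e0, Real.mul_rpow ht.le (by positivity)]
  have u := bern4 (s / t) a (by positivity) ((div_le_one ht).2 hst) ha ha1
  have e2 : t ^ (a - 1) = t ^ a / t := by rw [Real.rpow_sub_one ht.ne']
  rw [e1, e2]
  have p : 0 < t ^ a := Real.rpow_pos_of_pos ht a
  calc t ^ a + a * (t ^ a / t) * s / 2 = t ^ a * (1 + a * (s / t) / 2) := by ring
    _ ≤ t ^ a * (1 + s / t) ^ a := mul_le_mul_of_nonneg_left u p.le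

end Pool.Agent.W147.PS
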