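import Pool.Agent.H912R3.Loc.Main

set_option autoImplicit false

/-! Record gaps at prescribed places: the theorem and proof of the starting file
`Pool.Agent.Results.MP_3bc45c_nt.RecordGapsAtPrescribedPlaces` (project of helper912, helper378,
helper256), copied to be used as a lemma. -/

namespace Pool.Agent.W147.PS

theorem loc : ∀ δ A : ℝ, 0 < δ → δ < 1 → 0 ≤ A → ∃ c : ℝ, 0 < c ∧ ∃ x₀ : ℝ, ∀ x : ℝ, x₀ ≤ x →
    ∀ d : ℕ, 1 ≤ d → (d : ℝ) ≤ x ^ (1 - δ) →
    (∑ p ∈ d.primeFactors with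
      Real.exp (Real.log (Real.log x) * Real.log (Real.log (Real.log (Real.log x))) /
        (20 * Real.log (Real.log (Real.log x)))) < ((p : ℕ) : ℝ), 1 / ((p : ℕ) : ℝ)) ≤
      A / Real.log (Real.log x) →
    ∀ a z : ℕ, ∃ n : ℕ, n ≡ a [MOD d] ∧ z < n ∧ (n : ℝ) ≤ z + x ∧
      ∀ p : ℕ, p.Prime →
        c * ((Nat.totient d : ℝ) / d * (Real.log x * (Real.log (Real.log x)) ^ 2 *
          Real.log (Real.log (Real.log (Real.log x))) / (Real.log (Real.log (Real.log x))) ^ 2)) <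
        |(p : ℝ) - n| := by
  intro δ A hδ hδ1 hA
  obtain ⟨c, hc, x₀, h⟩ := Pool.Agent.H912R3.Loc.loc_core
    Pool.Agent.H256R2.SC.covering δ A hδ hδ1 hA
  refine ⟨c / 8, by positivity, max x₀ 1, fun x hx d hd hdx hcond a z => ?_⟩
  obtain ⟨h400, h⟩ := h x ((le_max_left _ _).trans hx) d hd hdx (by convert hcond)
  have hx1 : 1 ≤ x := (le_max_right _ _).trans hx
  have hF : Pool.Agent.H378R2.RM.FF (Real.log x) = Real.log x * (Real.log (Real.log x)) ^ 2 *
      Real.log (Real.log (Real.log (Real.log x))) / (Real.log (Real.log (Real.log x))) ^ 2 := rfl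
  rw [← hF]
  set t : ℝ := c * ((Nat.totient d : ℝ) / d) * Pool.Agent.H378R2.RM.FF (Real.log x) with ht
  have ht8 : c / 8 * ((Nat.totient d : ℝ) / d * Pool.Agent.H378R2.RM.FF (Real.log x)) = t / 8 := by
    rw [ht]; ring
  rw [ht8]
  set K : ℕ := ⌊t / 2⌋₊ with hK
  have hK1 : (K : ℝ) ≤ t / 2 := Nat.floor_le (by linarith)
  have hK2 : t / 2 < K + 1 := Nat.lt_floor_add_one _
  set r : ℕ := (a + (d - 1) * (K + z)) % d with hr
  have hrd : r < d := Nat.mod_lt _ (by omega)
  obtain ⟨n, hn1, hn2, hn3⟩ := h (z + r)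
  have hrd' : (r : ℝ) < d := by exact_mod_cast hrd
  refine ⟨z + r + d * n + K, ?_, ?_, ?_, ?_⟩
  · have h1 : r ≡ a + (d - 1) * (K + z) [MOD d] := Nat.mod_modEq _ _
    have h2 : z + r + d * n + K ≡ z + (a + (d - 1) * (K + z)) + d * n + K [MOD d] :=
      ((Nat.ModEq.add_left z h1).add_right _).add_right _
    refine h2.trans ?_
    have h3 : z + (a + (d - 1) * (K + z)) + d * n + K = a + d * (K + z + n) := by
      obtain ⟨e, rfl⟩ := Nat.exists_eq_add_of_le hd
      rw [Nat.add_sub_cancel_left]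
      ring
    rw [h3]
    exact (Nat.modEq_iff_dvd' (Nat.le_add_right _ _)).2 (by simp) |>.symm
  · have h1 : (0 : ℝ) < d * n := lt_trans (by positivity) hn1
    have h2 : 0 < d * n := by exact_mod_cast h1
    omega
  · push_cast
    linarith
  · intro p hp
    by_contra hcon
    push Not at hcon
    rw [abs_le] at hcon
    push_cast at hcon
    obtain ⟨h1, h2⟩ := hcon
    have h3 : ((z + r + d * n : ℕ) : ℝ) + 1 ≤ p := by
      push_cast
      linarith
    have h4 : z + r + d * n + 1 ≤ p := by exact_mod_cast h3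
    obtain ⟨k, hk⟩ := Nat.exists_eq_add_of_le (by omega : z + r + d * n ≤ p)
    have hk1 : 1 ≤ k := by omega
    refine hn3 k hk1 ?_ (hk ▸ hp)
    have h5 : (p : ℝ) = z + r + d * n + k := by
      rw [hk]; push_cast; ring
    linarith


end Pool.Agent.W147.PS
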