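import Mathlib

set_option autoImplicit false

/-! Integers in short intervals without small prime factors; the record scale. -/

namespace Pool.Agent.W147.PS

open Filter Finset

/-- `∏ (1 - a_i) ≥ 1 - ∑ a_i` -/
theorem one_sub_sum_le {ι : Type*} (s : Finset ι) (a : ι → ℝ) (h0 : ∀ i ∈ s, 0 ≤ a i)
    (h1 : ∀ i ∈ s, a i ≤ 1) : 1 - ∑ i ∈ s, a i ≤ ∏ i ∈ s, (1 - a i) := by
  classical
  induction s using Finset.induction_on with
  | empty => simp
  | insert i s hi ih =>
    rw [sum_insert hi, prod_insert hi]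
    have h := ih (fun j hj => h0 j (mem_insert_of_mem hj)) (fun j hj => h1 j (mem_insert_of_mem hj))
    have a0 := h0 i (mem_insert_self _ _)
    have a1 := h1 i (mem_insert_self _ _)
    have s0 : 0 ≤ ∑ j ∈ s, a j := sum_nonneg (fun j hj => h0 j (mem_insert_of_mem hj))
    have p1 : ∏ j ∈ s, (1 - a j) ≤ 1 := prod_le_one
      (fun j hj => by linarith [h1 j (mem_insert_of_mem hj)])
      (fun j hj => by linarith [h0 j (mem_insert_of_mem hj)])
    nlinarith

theorem totient_ge (d : ℕ) (hd : 1 ≤ d) :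
    1 - ∑ p ∈ d.primeFactors, 1 / (p : ℝ) ≤ (Nat.totient d : ℝ) / d := by
  have hd0 : (d : ℝ) ≠ 0 := by positivity
  have h := Nat.totient_eq_mul_prod_factors d
  have h' : (Nat.totient d : ℝ) = d * ∏ p ∈ d.primeFactors, (1 - (p : ℝ)⁻¹) := by
    have h2 := congrArg (fun q : ℚ => (q : ℝ)) h
    push_cast at h2
    exact h2
  rw [h', mul_div_cancel_left₀ _ hd0]
  have := one_sub_sum_le d.primeFactors (fun p => 1 / (p : ℝ)) (fun p _ => by positivity)
    (fun p hp => by
      have hp' := (Nat.prime_of_mem_primeFactors hp).one_lt.le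
      rw [div_le_one (by exact_mod_cast (Nat.prime_of_mem_primeFactors hp).pos)]
      exact_mod_cast hp')
  simpa [one_div] using this

/-- an integer congruent to 1 in a window of length `P` -/
theorem exists_one_mod (k P : ℕ) (hP : 1 ≤ P) :
    ∃ d : ℕ, k < d ∧ d ≤ k + P ∧ 1 ≡ d [MOD P] := by
  refine ⟨k + 1 + (P - 1) * k % P, by omega, ?_, ?_⟩
  · have := Nat.mod_lt ((P - 1) * k) hP
    omega
  · have h1 : (P - 1) * k % P ≡ (P - 1) * k [MOD P] := Nat.mod_modEq _ _
    have h2 : k + 1 + (P - 1) * k % P ≡ k + 1 + (P - 1) * k [MOD P] := Nat.ModEq.add_left _ h1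
    refine Nat.ModEq.symm (h2.trans ?_)
    have h3 : k + 1 + (P - 1) * k = 1 + P * k := by
      obtain ⟨e, rfl⟩ := Nat.exists_eq_add_of_le hP
      rw [Nat.add_sub_cancel_left]; ring
    rw [h3]
    exact (Nat.modEq_iff_dvd' (Nat.le_add_right _ _)).2 (by simp) |>.symm

theorem nice (η : ℝ) (hη : 0 < η) (hη1 : η ≤ 1) : ∀ᶠ M : ℝ in atTop, ∀ u : ℝ, 0 ≤ u → u ≤ M →
    ∃ d : ℕ, u < d ∧ (d : ℝ) ≤ u + M ^ η ∧ 1 / 2 ≤ (Nat.totient d : ℝ) / d ∧
      ∑ p ∈ d.primeFactors, 1 / (p : ℝ) ≤ (16 / η) / Real.log (Real.log M) := by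
  have hlog : Tendsto Real.log atTop atTop := Real.tendsto_log_atTop
  have hll : Tendsto (fun M : ℝ => Real.log (Real.log M)) atTop atTop := hlog.comp hlog
  have e1 : ∀ᶠ M : ℝ in atTop, 1 ≤ M := eventually_ge_atTop 1
  have e2 : ∀ᶠ M : ℝ in atTop, 2 ≤ Real.log M := hlog.eventually_ge_atTop 2
  have e3 : ∀ᶠ M : ℝ in atTop, 32 / η ≤ Real.log (Real.log M) := hll.eventually_ge_atTop _
  have e4 : ∀ᶠ M : ℝ in atTop, -(2 * Real.log (η / 4)) ≤ Real.log (Real.log M) :=
    hll.eventually_ge_atTop _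
  filter_upwards [e1, e2, e3, e4] with M h1 h2 h3 h4 u hu0 huM
  set L := Real.log M with hL
  set y : ℕ := ⌊η / 4 * L⌋₊ with hy
  have hL0 : 0 < L := by linarith
  have hyle : (y : ℝ) ≤ η / 4 * L := Nat.floor_le (by positivity)
  have hylt : η / 4 * L < y + 1 := Nat.lt_floor_add_one _
  have hM0 : 0 < M := by linarith
  have hllpos : 0 < Real.log L := lt_of_lt_of_le (by positivity) h3
  have hP : (primorial y : ℝ) ≤ M ^ η := by
    have p1 : (primorial y : ℝ) ≤ (4 : ℝ) ^ y := by exact_mod_cast primorial_le_four_pow y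
    have p2 : (4 : ℝ) ^ y = Real.exp (Real.log 4 * y) := by
      rw [Real.exp_mul, Real.exp_log (by norm_num), Real.rpow_natCast]
    have p3 : Real.log 4 ≤ 2 := by
      have : Real.log 4 = 2 * Real.log 2 := by
        rw [show (4 : ℝ) = 2 ^ 2 by norm_num, Real.log_pow]; norm_num
      have := Real.log_two_lt_d9
      linarith
    have p4 : M ^ η = Real.exp (L * η) := by
      rw [Real.rpow_def_of_pos hM0]
    rw [p4]
    refine p1.trans (p2 ▸ ?_)
    rw [Real.exp_le_exp]
    have : Real.log 4 * y ≤ 2 * (η / 4 * L) := by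
      have hy0 : (0 : ℝ) ≤ y := Nat.cast_nonneg _
      nlinarith
    nlinarith
  have hPpos : 1 ≤ primorial y := primorial_pos y
  obtain ⟨d, hd1, hd2, hd3⟩ := exists_one_mod ⌊u⌋₊ (primorial y) hPpos
  have hud : u < d := lt_of_lt_of_le (Nat.lt_floor_add_one u) (by exact_mod_cast hd1)
  have hdu : (d : ℝ) ≤ u + M ^ η := by
    have : (d : ℝ) ≤ (⌊u⌋₊ : ℝ) + primorial y := by exact_mod_cast hd2
    have h5 := Nat.floor_le hu0
    linarith
  have hdpos : 1 ≤ d := by omega
  have hMη : M ^ η ≤ M := by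
    calc M ^ η ≤ M ^ (1 : ℝ) := Real.rpow_le_rpow_of_exponent_le h1 hη1
      _ = M := Real.rpow_one M
  have hd2M : (d : ℝ) ≤ 2 * M := by linarith
  -- prime factors of d exceed y
  have hpf : ∀ p ∈ d.primeFactors, y + 1 ≤ p := by
    intro p hp
    by_contra hcon
    have hpy : p ≤ y := by omega
    have hpp := Nat.prime_of_mem_primeFactors hp
    have hpd := Nat.dvd_of_mem_primeFactors hp
    have hpP : p ∣ primorial y := by
      unfold primorial
      exact Finset.dvd_prod_of_mem _ (by simp [hpp]; omega)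
    have h5 : (1 : ℕ) ≡ d [MOD p] := hd3.of_dvd hpP
    have h6 : d ≡ 0 [MOD p] := (Nat.modEq_zero_iff_dvd).2 hpd
    have h7 : p ∣ 1 := (Nat.modEq_zero_iff_dvd).1 (h5.trans h6)
    exact hpp.one_lt.ne' (Nat.dvd_one.1 h7)
  have hcard : (d.primeFactors.card : ℝ) * Real.log (y + 1) ≤ Real.log (2 * M) := by
    have q1 : (y + 1) ^ d.primeFactors.card ≤ d := by
      calc (y + 1) ^ d.primeFactors.card ≤ ∏ p ∈ d.primeFactors, p :=
            Finset.pow_card_le_prod _ _ _ hpf
        _ ≤ d := Nat.le_of_dvd hdpos (Nat.prod_primeFactors_dvd d)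
    have q2 : ((y : ℝ) + 1) ^ d.primeFactors.card ≤ 2 * M := by
      have : (((y + 1) ^ d.primeFactors.card : ℕ) : ℝ) ≤ d := by exact_mod_cast q1
      push_cast at this
      linarith
    have q3 := Real.log_le_log (by positivity) q2
    rwa [Real.log_pow] at q3
  have hlog2M : Real.log (2 * M) ≤ 2 * L := by
    rw [Real.log_mul (by norm_num) hM0.ne']
    have := Real.log_two_lt_d9
    linarith
  have hlogy : Real.log L / 2 ≤ Real.log (y + 1) := by
    have q1 : Real.log (η / 4 * L) ≤ Real.log (y + 1) := Real.log_le_log (by positivity) hylt.le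
    rw [Real.log_mul (by positivity) hL0.ne'] at q1
    linarith
  have hsum : ∑ p ∈ d.primeFactors, 1 / (p : ℝ) ≤ (16 / η) / Real.log L := by
    have q1 : ∑ p ∈ d.primeFactors, 1 / (p : ℝ) ≤ d.primeFactors.card * (1 / ((y : ℝ) + 1)) := by
      rw [← nsmul_eq_mul]
      refine Finset.sum_le_card_nsmul _ _ _ (fun p hp => ?_)
      have : ((y + 1 : ℕ) : ℝ) ≤ p := by exact_mod_cast hpf p hp
      push_cast at this
      exact one_div_le_one_div_of_le (by positivity) this
    refine q1.trans ?_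
    have c0 : (0 : ℝ) ≤ d.primeFactors.card := Nat.cast_nonneg _
    have q2 : (d.primeFactors.card : ℝ) * (Real.log L / 2) ≤ 2 * L :=
      (mul_le_mul_of_nonneg_left hlogy c0).trans (hcard.trans hlog2M)
    rw [mul_one_div, div_le_div_iff₀ (by positivity) hllpos]
    have q3 : (d.primeFactors.card : ℝ) * Real.log L ≤ 4 * L := by linarith
    have q4 : 4 * L = 16 / η * (η / 4 * L) := by field_simp; norm_num
    rw [q4] at q3
    refine q3.trans (mul_le_mul_of_nonneg_left hylt.le (by positivity))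
  refine ⟨d, hud, hdu, ?_, hsum⟩
  have q5 := totient_ge d hdpos
  have q6 : (16 / η) / Real.log L ≤ 1 / 2 := by
    rw [div_le_iff₀ hllpos]
    have : 16 / η = (1 / 2) * (32 / η) := by ring
    rw [this]
    linarith
  linarith

end Pool.Agent.W147.PS
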