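import Mathlib

set_option autoImplicit false

/-! The record scale at `M ^ θ ≤ x ≤ M ^ 2`, and comparison of powers. -/

namespace Pool.Agent.W147.PS

open Filter

/-- the record scale -/
noncomputable def ff (x : ℝ) : ℝ :=
  Real.log x * (Real.log (Real.log x)) ^ 2 * Real.log (Real.log (Real.log (Real.log x))) /
    (Real.log (Real.log (Real.log x))) ^ 2

theorem ev_pow (a b C : ℝ) (h : a < b) : ∀ᶠ M : ℝ in atTop, C * M ^ a ≤ M ^ b := by
  have h1 : Tendsto (fun M : ℝ => M ^ (b - a)) atTop atTop := tendsto_rpow_atTop (by linarith)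
  filter_upwards [h1.eventually_ge_atTop C, eventually_gt_atTop 0] with M hM hM0
  have h2 : 0 < M ^ a := Real.rpow_pos_of_pos hM0 a
  calc C * M ^ a ≤ M ^ (b - a) * M ^ a := mul_le_mul_of_nonneg_right hM h2.le
    _ = M ^ b := by rw [← Real.rpow_add hM0]; congr 1; ring

theorem log_half {a b : ℝ} (hb : 0 < b) (h : a / 2 ≤ b) (ha : 4 ≤ a) :
    Real.log a / 2 ≤ Real.log b := by
  have h1 : Real.log (a / 2) ≤ Real.log b := Real.log_le_log (by linarith) h
  rw [Real.log_div (by linarith) (by norm_num)] at h1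
  have h2 : 2 * Real.log 2 ≤ Real.log a := by
    have : Real.log ((2 : ℝ) ^ 2) ≤ Real.log a := Real.log_le_log (by norm_num) (by linarith)
    rw [Real.log_pow] at this
    exact_mod_cast this
  linarith

theorem log_double {a b : ℝ} (hb : 0 < b) (h : b ≤ 2 * a) (ha : 4 ≤ a) :
    Real.log b ≤ 2 * Real.log a := by
  have h1 : Real.log b ≤ Real.log (2 * a) := Real.log_le_log hb h
  rw [Real.log_mul (by norm_num) (by linarith)] at h1
  have h2 : Real.log 2 ≤ Real.log a := Real.log_le_log (by norm_num) (by linarith)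
  linarith

theorem ff_compare (θ : ℝ) (h0 : 0 < θ) (h1 : θ ≤ 1) : ∀ᶠ M : ℝ in atTop,
    Real.log M ≤ ff M ∧ ∀ x : ℝ, M ^ θ ≤ x → x ≤ M ^ 2 →
      θ / 32 * ff M ≤ ff x ∧ 0 < Real.log (Real.log x) ∧
        Real.log (Real.log x) ≤ 2 * Real.log (Real.log M) := by
  have t1 : Tendsto Real.log atTop atTop := Real.tendsto_log_atTop
  have t2 : Tendsto (fun M : ℝ => Real.log (Real.log M)) atTop atTop := t1.comp t1
  have t3 : Tendsto (fun M : ℝ => Real.log (Real.log (Real.log M))) atTop atTop := t1.comp t2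
  have t4 : Tendsto (fun M : ℝ => Real.log (Real.log (Real.log (Real.log M)))) atTop atTop :=
    t1.comp t3
  filter_upwards [eventually_ge_atTop 1, t1.eventually_ge_atTop 4, t2.eventually_ge_atTop 4,
    t2.eventually_ge_atTop (-(2 * Real.log θ)),
    t3.eventually_ge_atTop 4, t4.eventually_ge_atTop 4] with M hM1 m1 m2 m2' m3 m4
  set L1 := Real.log M with hL1
  set L2 := Real.log L1 with hL2
  set L3 := Real.log L2 with hL3
  set L4 := Real.log L3 with hL4
  have hL32 : L3 ≤ L2 := by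
    have := Real.log_le_sub_one_of_pos (show 0 < L2 by linarith)
    linarith
  have hffM : ff M = L1 * L2 ^ 2 * L4 / L3 ^ 2 := rfl
  constructor
  · rw [hffM, le_div_iff₀ (by positivity)]
    have p1 : L3 ^ 2 ≤ L2 ^ 2 := pow_le_pow_left₀ (by linarith) hL32 2
    have p2 : L2 ^ 2 * 1 ≤ L2 ^ 2 * L4 := mul_le_mul_of_nonneg_left (by linarith) (by positivity)
    calc L1 * L3 ^ 2 ≤ L1 * (L2 ^ 2 * L4) := mul_le_mul_of_nonneg_left (by linarith) (by linarith)
      _ = _ := by ring
  · intro x hx1 hx2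
    have hM0 : 0 < M := by linarith
    have hx0 : 0 < x := (Real.rpow_pos_of_pos hM0 θ).trans_le hx1
    have a1 : θ * L1 ≤ Real.log x := by
      have := Real.log_le_log (Real.rpow_pos_of_pos hM0 θ) hx1
      rwa [Real.log_rpow hM0] at this
    have b1 : Real.log x ≤ 2 * L1 := by
      have := Real.log_le_log hx0 hx2
      rw [Real.log_pow] at this
      exact_mod_cast this
    set l1 := Real.log x with hl1
    have l1pos : 0 < l1 := lt_of_lt_of_le (by positivity) a1
    have b2 : Real.log l1 ≤ 2 * L2 := log_double l1pos b1 m1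
    have a2 : L2 / 2 ≤ Real.log l1 := by
      have h2 := Real.log_le_log (by positivity) a1
      rw [Real.log_mul h0.ne' (by linarith)] at h2
      linarith
    set l2 := Real.log l1 with hl2
    have l2pos : 0 < l2 := by linarith
    have b3 : Real.log l2 ≤ 2 * L3 := log_double l2pos b2 m2
    have a3 : L3 / 2 ≤ Real.log l2 := log_half l2pos a2 m2
    set l3 := Real.log l2 with hl3
    have l3pos : 0 < l3 := by linarith
    have a4 : L4 / 2 ≤ Real.log l3 := log_half l3pos a3 m3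
    set l4 := Real.log l3 with hl4
    refine ⟨?_, l2pos, b2⟩
    have hffx : ff x = l1 * l2 ^ 2 * l4 / l3 ^ 2 := rfl
    rw [hffM, hffx, mul_div_assoc', div_le_div_iff₀ (by positivity) (by positivity)]
    have p1 : (L2 / 2) ^ 2 ≤ l2 ^ 2 := pow_le_pow_left₀ (by linarith) a2 2
    have p2 : l3 ^ 2 ≤ (2 * L3) ^ 2 := pow_le_pow_left₀ l3pos.le b3 2
    have q0 : θ * L1 * (L2 / 2) ^ 2 ≤ l1 * l2 ^ 2 :=
      mul_le_mul a1 p1 (by positivity) l1pos.le
    have q1 : θ * L1 * (L2 / 2) ^ 2 * (L4 / 2) ≤ l1 * l2 ^ 2 * l4 :=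
      mul_le_mul q0 a4 (by linarith) (by positivity)
    calc θ / 32 * (L1 * L2 ^ 2 * L4) * l3 ^ 2
        ≤ θ / 32 * (L1 * L2 ^ 2 * L4) * (2 * L3) ^ 2 :=
          mul_le_mul_of_nonneg_left p2 (by positivity)
      _ = θ * L1 * (L2 / 2) ^ 2 * (L4 / 2) * L3 ^ 2 := by ring
      _ ≤ l1 * l2 ^ 2 * l4 * L3 ^ 2 := mul_le_mul_of_nonneg_right q1 (by positivity)

end Pool.Agent.W147.PS
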