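import Pool.Agent.W147.PS.Loc
import Pool.Agent.W147.PS.Nice
import Pool.Agent.W147.PS.Calc
import Pool.Agent.W147.PS.Scale

set_option autoImplicit false

/-! Record gaps around `α n ^ c`, `1 < c < 2`. -/

namespace Pool.Agent.W147.PS

open Filter Finset

/-- choice of the modulus `d` and of the point `N` where `α t ^ c` has slope close to `d` -/
theorem choose (α c ε₁ : ℝ) (hα : 0 < α) (hc1 : 1 < c) (hc2 : c < 2) (hε : 0 < ε₁)
    (hε1 : ε₁ ≤ c - 1) : ∀ᶠ M : ℝ in atTop, ∃ d N : ℕ, (d : ℝ) ≤ M ∧ M ^ ((c - 1) / 2) ≤ d ∧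
      1 / 2 ≤ (Nat.totient d : ℝ) / d ∧
      ∑ p ∈ d.primeFactors, 1 / (p : ℝ) ≤ (32 / ε₁) / Real.log (Real.log M) ∧
      M < N ∧ (N : ℝ) ≤ M + M ^ (2 - c + ε₁) / 4 + 1 ∧
      |α * c * (N : ℝ) ^ (c - 1) - d| ≤ α * c * (c - 1) * M ^ (c - 2) := by
  have hη : 0 < ε₁ / 2 := by positivity
  have hη1 : ε₁ / 2 ≤ 1 := by linarith
  filter_upwards [nice (ε₁ / 2) hη hη1, eventually_ge_atTop 1,
    ev_pow (c - 1) 1 (2 * (α * c)) (by linarith), ev_pow (ε₁ / 2) 1 2 (by linarith),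
    ev_pow ((c - 1) / 2) (c - 1) (1 / (α * c)) (by linarith),
    ev_pow (ε₁ / 2) ε₁ (8 / (α * c * (c - 1))) (by linarith)]
    with M hnice hM1 hA hB hC hD
  have hM0 : 0 < M := by linarith
  have hαc : 0 < α * c := by positivity
  have hc0 : 0 < c - 1 := by linarith
  rw [Real.rpow_one] at hA hB
  set u : ℝ := α * c * M ^ (c - 1) with hu
  have hMp : 0 < M ^ (c - 1) := Real.rpow_pos_of_pos hM0 _
  have hu0 : 0 ≤ u := by positivity
  have huM : u ≤ M / 2 := by rw [hu]; linarith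
  obtain ⟨d, hd1, hd2, hd3, hd4⟩ := hnice u hu0 (by linarith)
  have hd0 : (0 : ℝ) < d := lt_of_le_of_lt hu0 hd1
  have e32 : (16 : ℝ) / (ε₁ / 2) = 32 / ε₁ := by field_simp; norm_num
  rw [e32] at hd4
  -- the window
  set w : ℝ := M ^ (2 - c + ε₁) / 4 with hw
  have hw0 : 0 ≤ w := by positivity
  have hwM : w ≤ M := by
    have : M ^ (2 - c + ε₁) ≤ M ^ (1 : ℝ) := Real.rpow_le_rpow_of_exponent_le hM1 (by linarith)
    rw [Real.rpow_one] at this
    rw [hw]; linarith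
  -- slope at M + w
  have hslope : (d : ℝ) ≤ α * c * (M + w) ^ (c - 1) := by
    have h1 := deriv_low M w (c - 1) hM0 hw0 hwM hc0.le (by linarith)
    have h2 := mul_le_mul_of_nonneg_left h1 hαc.le
    have h3 : α * c * (M ^ (c - 1) + (c - 1) * M ^ (c - 1 - 1) * w / 2) =
        u + α * c * (c - 1) / 8 * M ^ ε₁ := by
      have : M ^ (c - 1 - 1) * M ^ (2 - c + ε₁) = M ^ ε₁ := by
        rw [← Real.rpow_add hM0]; congr 1; ring
      rw [hw, hu, ← this]; ring
    have h4 : M ^ (ε₁ / 2) ≤ α * c * (c - 1) / 8 * M ^ ε₁ := by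
      have h5 := mul_le_mul_of_nonneg_left hD (show 0 ≤ α * c * (c - 1) / 8 by positivity)
      have h6 : α * c * (c - 1) / 8 * (8 / (α * c * (c - 1)) * M ^ (ε₁ / 2)) = M ^ (ε₁ / 2) := by
        field_simp
      linarith
    linarith
  -- the point t₀ with slope exactly d
  set t₀ : ℝ := (d / (α * c)) ^ (1 / (c - 1)) with ht₀
  have hq0 : 0 < (d : ℝ) / (α * c) := by positivity
  have ht₀pos : 0 < t₀ := Real.rpow_pos_of_pos hq0 _
  have ht₀p : t₀ ^ (c - 1) = d / (α * c) := by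
    rw [ht₀, ← Real.rpow_mul hq0.le, one_div_mul_cancel hc0.ne', Real.rpow_one]
  have hMt : M < t₀ := by
    by_contra hcon
    push Not at hcon
    have h1 : t₀ ^ (c - 1) ≤ M ^ (c - 1) := Real.rpow_le_rpow ht₀pos.le hcon hc0.le
    rw [ht₀p, div_le_iff₀ hαc] at h1
    have : u = M ^ (c - 1) * (α * c) := by rw [hu]; ring
    linarith
  have htw : t₀ ≤ M + w := by
    by_contra hcon
    push Not at hcon
    have h1 : (M + w) ^ (c - 1) < t₀ ^ (c - 1) := Real.rpow_lt_rpow (by linarith) hcon hc0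
    rw [ht₀p, lt_div_iff₀ hαc] at h1
    linarith
  set N : ℕ := ⌈t₀⌉₊ with hN
  have hN1 : t₀ ≤ N := Nat.le_ceil _
  have hN2 : (N : ℝ) < t₀ + 1 := Nat.ceil_lt_add_one ht₀pos.le
  refine ⟨d, N, by linarith, ?_, hd3, hd4, lt_of_lt_of_le hMt hN1, by linarith, ?_⟩
  · -- lower bound of d
    have h1 := mul_le_mul_of_nonneg_left hC hαc.le
    have h2 : α * c * (1 / (α * c) * M ^ ((c - 1) / 2)) = M ^ ((c - 1) / 2) := by field_simp
    linarith
  · have h1 : t₀ ^ (c - 1) ≤ (N : ℝ) ^ (c - 1) := Real.rpow_le_rpow ht₀pos.le hN1 hc0.le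
    have h2 := deriv_up t₀ (N - t₀) (c - 1) ht₀pos (by linarith) hc0.le (by linarith)
    have h3 : t₀ + ((N : ℝ) - t₀) = N := by ring
    rw [h3] at h2
    have h4 : t₀ ^ (c - 1 - 1) ≤ M ^ (c - 2) := by
      rw [show c - 1 - 1 = c - 2 by ring]
      exact Real.rpow_le_rpow_of_nonpos hM0 hMt.le (by linarith)
    have h5 : (N : ℝ) ^ (c - 1) - t₀ ^ (c - 1) ≤ (c - 1) * M ^ (c - 2) := by
      have h6 : (c - 1) * t₀ ^ (c - 1 - 1) * ((N : ℝ) - t₀) ≤ (c - 1) * M ^ (c - 2) * 1 := by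
        refine mul_le_mul (mul_le_mul_of_nonneg_left h4 hc0.le) (by linarith) (by linarith) ?_
        positivity
      linarith
    have h7 : α * c * t₀ ^ (c - 1) = d := by rw [ht₀p]; field_simp
    rw [abs_le]
    constructor
    · have : α * c * t₀ ^ (c - 1) ≤ α * c * (N : ℝ) ^ (c - 1) :=
        mul_le_mul_of_nonneg_left h1 hαc.le
      have : 0 ≤ α * c * (c - 1) * M ^ (c - 2) := by positivity
      linarith
    · have h8 := mul_le_mul_of_nonneg_left h5 hαc.le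
      have h9 : α * c * ((N : ℝ) ^ (c - 1) - t₀ ^ (c - 1)) = α * c * (N : ℝ) ^ (c - 1) - d := by
        rw [mul_sub, h7]
      rw [h9] at h8
      linarith

theorem main (α c ε : ℝ) (hα : 0 < α) (hc1 : 1 < c) (hc2 : c < 2) (hε : 0 < ε) :
    ∃ κ : ℝ, 0 < κ ∧ ∃ M₀ : ℝ, ∀ M : ℝ, M₀ ≤ M → ∃ n : ℕ, M < n ∧ (n : ℝ) ≤ M + M ^ (2 - c + ε) ∧
      ∀ q : ℕ, q.Prime → κ * ff M < |(q : ℝ) - α * (n : ℝ) ^ c| := by
  have hc0 : 0 < c - 1 := by linarith
  set ε₁ : ℝ := min ε (c - 1) with hε₁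
  have hε₁0 : 0 < ε₁ := lt_min hε hc0
  have hε₁1 : ε₁ ≤ c - 1 := min_le_right _ _
  have hε₁2 : ε₁ ≤ ε := min_le_left _ _
  set τ : ℝ := (2 - c) / 4 with hτ
  have hτ0 : 0 < τ := by rw [hτ]; linarith
  have hτ1 : τ < 1 / 4 := by rw [hτ]; linarith
  set δ : ℝ := τ / 4 with hδ
  have hδ0 : 0 < δ := by positivity
  have hδ1 : δ < 1 / 2 := by rw [hδ]; linarith
  set A : ℝ := 2 * (32 / ε₁) with hA
  have hA0 : 0 ≤ A := by positivity
  obtain ⟨c₀, hc₀, x₀, hloc⟩ := loc δ A hδ0 (by linarith) hA0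
  set θ : ℝ := (c - 1) / 2 with hθ
  have hθ0 : 0 < θ := by positivity
  have hθ1 : θ ≤ 1 := by rw [hθ]; linarith
  have hκ : 0 < c₀ * θ / 128 := by positivity
  refine ⟨c₀ * θ / 128, hκ, ?_⟩
  have key : ∀ᶠ M : ℝ in atTop, ∃ n : ℕ, M < n ∧ (n : ℝ) ≤ M + M ^ (2 - c + ε) ∧
      ∀ q : ℕ, q.Prime → c₀ * θ / 128 * ff M < |(q : ℝ) - α * (n : ℝ) ^ c| := by
    have tθ : Tendsto (fun M : ℝ => M ^ θ) atTop atTop := tendsto_rpow_atTop hθ0
    filter_upwards [choose α c ε₁ hα hc1 hc2 hε₁0 hε₁1, ff_compare θ hθ0 hθ1,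
      eventually_ge_atTop 1, tθ.eventually_ge_atTop x₀,
      Real.tendsto_log_atTop.eventually_ge_atTop (4 / (c₀ * θ / 128)),
      ev_pow (τ / 2) τ 2 (by linarith), ev_pow τ (2 - c + ε₁) 2 (by linarith),
      ev_pow 0 (2 - c + ε₁) 4 (by linarith),
      ev_pow (c - 2 + 2 * τ) 0 (2 * (α * c * (c - 1))) (by rw [hτ]; linarith)]
      with M hch hff hM1 hx₀ hlogM hP1 hP2 hP3 hP4
    have hM0 : 0 < M := by linarith
    rw [Real.rpow_zero] at hP3 hP4
    obtain ⟨d, N, hdM, hdl, hφ, hsum, hMN, hNw, hslope⟩ := hch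
    obtain ⟨hffM, hcmp⟩ := hff
    set H : ℕ := ⌊M ^ τ⌋₊ with hH
    have hMτ1 : 1 ≤ M ^ (τ / 2) := Real.one_le_rpow hM1 (by positivity)
    have hH1 : (H : ℝ) ≤ M ^ τ := Nat.floor_le (by positivity)
    have hH2 : M ^ (τ / 2) ≤ H := by
      have : M ^ τ < H + 1 := Nat.lt_floor_add_one _
      linarith
    have hHpos : (1 : ℝ) ≤ H := hMτ1.trans hH2
    have hd1 : (1 : ℝ) ≤ d := (Real.one_le_rpow hM1 (by positivity)).trans hdl
    have hd1' : 1 ≤ d := by exact_mod_cast hd1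
    set x : ℝ := d * H with hx
    have hxpos : 0 < x := by positivity
    have hxl : M ^ θ ≤ x := by
      calc M ^ θ ≤ d := hdl
        _ = d * 1 := (mul_one _).symm
        _ ≤ d * H := mul_le_mul_of_nonneg_left hHpos (by linarith)
    have hHM : (H : ℝ) ≤ M := by
      refine hH1.trans ?_
      calc M ^ τ ≤ M ^ (1 : ℝ) := Real.rpow_le_rpow_of_exponent_le hM1 (by linarith)
        _ = M := Real.rpow_one M
    have hxu : x ≤ M ^ 2 := by
      calc x ≤ M * M := mul_le_mul hdM hHM (by positivity) hM0.le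
        _ = M ^ 2 := by ring
    obtain ⟨hffx, hllx, hllx2⟩ := hcmp x hxl hxu
    -- d ≤ x ^ (1 - δ)
    have hdx : (d : ℝ) ≤ x ^ (1 - δ) := by
      have h1 : (d : ℝ) ^ δ ≤ (H : ℝ) ^ (1 - δ) := by
        calc (d : ℝ) ^ δ ≤ M ^ δ := Real.rpow_le_rpow (by linarith) hdM hδ0.le
          _ ≤ (M ^ (τ / 2)) ^ (1 - δ) := by
              rw [← Real.rpow_mul hM0.le]
              refine Real.rpow_le_rpow_of_exponent_le hM1 ?_
              rw [hδ]; nlinarith
          _ ≤ (H : ℝ) ^ (1 - δ) := Real.rpow_le_rpow (by positivity) hH2 (by linarith)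
      calc (d : ℝ) = (d : ℝ) ^ (1 - δ) * (d : ℝ) ^ δ := by
            rw [← Real.rpow_add (by linarith)]; simp
        _ ≤ (d : ℝ) ^ (1 - δ) * (H : ℝ) ^ (1 - δ) := mul_le_mul_of_nonneg_left h1 (by positivity)
        _ = x ^ (1 - δ) := by rw [hx, Real.mul_rpow (by positivity) (by positivity)]
    -- condition on the prime factors
    have hcond : (∑ p ∈ d.primeFactors with
        Real.exp (Real.log (Real.log x) * Real.log (Real.log (Real.log (Real.log x))) /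
          (20 * Real.log (Real.log (Real.log x)))) < ((p : ℕ) : ℝ), 1 / ((p : ℕ) : ℝ)) ≤
        A / Real.log (Real.log x) := by
      refine (Finset.sum_le_sum_of_subset_of_nonneg (Finset.filter_subset _ _)
        (fun i _ _ => by positivity)).trans (hsum.trans ?_)
      have h2 : 0 < Real.log (Real.log M) := by linarith
      rw [hA, div_le_div_iff₀ h2 hllx]
      have : 0 < 32 / ε₁ := by positivity
      nlinarith
    set z : ℕ := ⌊α * (N : ℝ) ^ c⌋₊ with hz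
    have hN0 : (0 : ℝ) < N := by linarith
    have hgN : 0 ≤ α * (N : ℝ) ^ c := by positivity
    have hz1 : (z : ℝ) ≤ α * (N : ℝ) ^ c := Nat.floor_le hgN
    have hz2 : α * (N : ℝ) ^ c < z + 1 := Nat.lt_floor_add_one _
    obtain ⟨m, hm1, hm2, hm3, hm4⟩ := hloc x (hx₀.trans hxl) d hd1' hdx hcond z z
    -- m = z + d h
    have hdvd : d ∣ m - z := (Nat.modEq_iff_dvd' hm2.le).1 hm1.symm
    obtain ⟨h, hh⟩ := hdvd
    have hmz : m = z + d * h := by omega
    have hmzr : (m : ℝ) = z + d * h := by rw [hmz]; push_cast; ring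
    have hhH : h ≤ H := by
      have h1 : (d : ℝ) * h ≤ d * H := by
        have : (m : ℝ) ≤ z + x := hm3
        rw [hmzr, hx] at this
        linarith
      have h2 : (h : ℝ) ≤ H := le_of_mul_le_mul_left h1 (by linarith)
      exact_mod_cast h2
    have hhr : (h : ℝ) ≤ H := by exact_mod_cast hhH
    have hh0 : (0 : ℝ) ≤ h := Nat.cast_nonneg _
    -- approximation
    have hC : 0 < α * c * (c - 1) := by positivity
    have hMc : 0 < M ^ (c - 2) := Real.rpow_pos_of_pos hM0 _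
    have happ : |(m : ℝ) - α * ((N : ℝ) + h) ^ c| ≤ 2 := by
      have t := taylor N h c hN0 hh0 hc1.le hc2.le
      have hNc : (N : ℝ) ^ (c - 2) ≤ M ^ (c - 2) :=
        Real.rpow_le_rpow_of_nonpos hM0 hMN.le (by linarith)
      have t2 : |α * ((N : ℝ) + h) ^ c - α * (N : ℝ) ^ c - α * c * (N : ℝ) ^ (c - 1) * h| ≤
          α * c * (c - 1) * M ^ (c - 2) * H ^ 2 := by
        have e : α * ((N : ℝ) + h) ^ c - α * (N : ℝ) ^ c - α * c * (N : ℝ) ^ (c - 1) * h =
          α * (((N : ℝ) + h) ^ c - (N : ℝ) ^ c - c * (N : ℝ) ^ (c - 1) * h) := by ring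
        rw [e, abs_mul, abs_of_pos hα]
        calc α * |((N : ℝ) + h) ^ c - (N : ℝ) ^ c - c * (N : ℝ) ^ (c - 1) * h|
            ≤ α * (c * (c - 1) * (N : ℝ) ^ (c - 2) * (h : ℝ) ^ 2) :=
              mul_le_mul_of_nonneg_left t hα.le
          _ ≤ α * (c * (c - 1) * M ^ (c - 2) * (H : ℝ) ^ 2) := by
              refine mul_le_mul_of_nonneg_left ?_ hα.le
              refine mul_le_mul (mul_le_mul_of_nonneg_left hNc (by positivity))
                (pow_le_pow_left₀ hh0 hhr 2) (by positivity) (by positivity)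
          _ = _ := by ring
      have t3 : |α * c * (N : ℝ) ^ (c - 1) * h - d * h| ≤
          α * c * (c - 1) * M ^ (c - 2) * H ^ 2 := by
        rw [← sub_mul, abs_mul, abs_of_nonneg hh0]
        have hH2' : (h : ℝ) ≤ (H : ℝ) ^ 2 := by nlinarith
        exact mul_le_mul hslope hH2' hh0 (by positivity)
      have t4 : 2 * (α * c * (c - 1) * M ^ (c - 2) * (H : ℝ) ^ 2) ≤ 1 := by
        have h1 : (H : ℝ) ^ 2 ≤ M ^ (2 * τ) := by
          calc (H : ℝ) ^ 2 ≤ (M ^ τ) ^ 2 := pow_le_pow_left₀ (by positivity) hH1 2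
            _ = M ^ (2 * τ) := by
                rw [← Real.rpow_natCast, ← Real.rpow_mul hM0.le]; congr 1; push_cast; ring
        calc 2 * (α * c * (c - 1) * M ^ (c - 2) * (H : ℝ) ^ 2)
            ≤ 2 * (α * c * (c - 1) * M ^ (c - 2) * M ^ (2 * τ)) := by gcongr
          _ = 2 * (α * c * (c - 1)) * M ^ (c - 2 + 2 * τ) := by
              rw [Real.rpow_add hM0]; ring
          _ ≤ 1 := hP4
      rw [abs_le] at t2 t3 ⊢
      rw [hmzr]
      constructor <;> linarith [t2.1, t2.2, t3.1, t3.2]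
    refine ⟨N + h, ?_, ?_, fun q hq => ?_⟩
    · push_cast; linarith
    · push_cast
      have hmono : M ^ (2 - c + ε₁) ≤ M ^ (2 - c + ε) :=
        Real.rpow_le_rpow_of_exponent_le hM1 (by linarith)
      linarith
    · push_cast
      have h1 := hm4 q hq
      have hlogeq : Real.log x * (Real.log (Real.log x)) ^ 2 *
          Real.log (Real.log (Real.log (Real.log x))) / (Real.log (Real.log (Real.log x))) ^ 2 =
          ff x := rfl
      rw [hlogeq] at h1
      have h2 : |(q : ℝ) - m| ≤ |(q : ℝ) - α * ((N : ℝ) + h) ^ c| + 2 := by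
        calc |(q : ℝ) - m| = |((q : ℝ) - α * ((N : ℝ) + h) ^ c) - ((m : ℝ) - α * ((N : ℝ) + h) ^ c)| := by
              congr 1; ring
          _ ≤ |(q : ℝ) - α * ((N : ℝ) + h) ^ c| + |(m : ℝ) - α * ((N : ℝ) + h) ^ c| := abs_sub _ _
          _ ≤ _ := by linarith
      have hffM0 : 4 / (c₀ * θ / 128) ≤ ff M := hlogM.trans hffM
      have hffMpos : 0 < ff M := lt_of_lt_of_le (by positivity) hffM0
      have h3 : 4 ≤ c₀ * θ / 128 * ff M := by
        rw [div_le_iff₀ hκ] at hffM0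
        linarith
      have hffx0 : 0 < ff x := lt_of_lt_of_le (by positivity) hffx
      have h4 : c₀ * (θ / 64 * ff M) ≤ c₀ * ((Nat.totient d : ℝ) / d * ff x) := by
        refine mul_le_mul_of_nonneg_left ?_ hc₀.le
        calc θ / 64 * ff M = 1 / 2 * (θ / 32 * ff M) := by ring
          _ ≤ 1 / 2 * ff x := mul_le_mul_of_nonneg_left hffx (by norm_num)
          _ ≤ (Nat.totient d : ℝ) / d * ff x := mul_le_mul_of_nonneg_right hφ hffx0.le
      have h5 : c₀ * (θ / 64 * ff M) = 2 * (c₀ * θ / 128 * ff M) := by ring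
      linarith
  obtain ⟨M₀, hM₀⟩ := eventually_atTop.1 key
  exact ⟨M₀, hM₀⟩

end Pool.Agent.W147.PS
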